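import Pool.Agent.FrobDecomp.Main

/-!
# Decompleting the Frobenius of a complete local ring in characteristic `p`

For every Noetherian complete local ring `A` of prime characteristic `p` there is a coefficient
field `k` such that `A' = k^{1/p^∞} ⊗_k A` (a Noetherian local ring) has a finite algebra `A''`
whose completion is isomorphic, under the completion of `A'`, to the Frobenius of the completion
of `A'`.
-/

namespace Pool.Agent.Results.MP_8ea7ca_ag.FrobeniusDecompletion

open scoped TensorProduct
open IsLocalRing Pool.Agent.FrobDecomp

universe u

/-- For every prime `p` and every Noetherian complete local ring `A` of characteristic `p` there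
is a coefficient field `k` of `A` such that `A' = k^{1/p^∞} ⊗_k A` is Noetherian and local and
there is a finite `A'`-algebra `A''` with ring isomorphisms `φ` from the completion of `A''`
at `𝔪_{A'}` (both as the `𝔪_{A'} A''`-adic completion and as `A'' ⊗_{A'} Â'`) to the completion
`Â'` of `A'` at its maximal ideal, such that the composite of `φ` with the map from `Â'`
induced by `A' → A''` is the Frobenius `x ↦ x ^ p` of `Â'`. -/
theorem result (p : ℕ) [Fact p.Prime] (A : Type u) [CommRing A] [CharP A p] [IsLocalRing A]
    [IsNoetherianRing A] [IsAdicComplete (maximalIdeal A) A] :
    ∃ k : Subring A, IsCoefficientField k ∧ IsNoetherianRing (PerfTensor p k) ∧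
      ∃ _ : IsLocalRing (PerfTensor p k), FrobeniusDecompletes p (PerfTensor p k) :=
  frobenius_decompletes

end Pool.Agent.Results.MP_8ea7ca_ag.FrobeniusDecompletion
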